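import Mathlib

namespace Pool.Agent.Results.MP_49314d_al.NoUniversal

/-- `G` admits a total order invariant under right multiplication. -/
def RightOrderable (G : Type) [Group G] : Prop :=
  ∃ o : LinearOrder G, ∀ x y z : G, o.le x y → o.le (x * z) (y * z)

abbrev Om : Type := ℤ ×ₗ ℚ

instance : Countable Om := inferInstanceAs (Countable (ℤ × ℚ))

theorem ro_sub (H : Subgroup (Om ≃o Om)) : RightOrderable H := by
  obtain ⟨e, he⟩ := exists_surjective_nat Om
  let φ : H → Lex (ℕ → Om) := fun g => toLex fun n => (g⁻¹ : H).1 (e n)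
  have hφ : Function.Injective φ := by
    intro g h hgh
    apply inv_injective
    apply Subtype.ext
    refine DFunLike.ext _ _ fun x => ?_
    obtain ⟨n, rfl⟩ := he x
    exact congrFun (toLex.injective hgh) n
  refine ⟨LinearOrder.lift' φ hφ, fun x y z h => ?_⟩
  change φ x ≤ φ y at h
  change φ (x * z) ≤ φ (y * z)
  rcases h.eq_or_lt with h | ⟨i, h1, h2⟩
  · rw [hφ h]
  · refine le_of_lt ⟨i, fun j hj => ?_, ?_⟩
    · have := h1 j hj
      change (x⁻¹ : H).1 (e j) = (y⁻¹ : H).1 (e j) at this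
      change ((x * z)⁻¹ : H).1 (e j) = ((y * z)⁻¹ : H).1 (e j)
      rw [mul_inv_rev, mul_inv_rev]
      change (z⁻¹ : H).1 ((x⁻¹ : H).1 (e j)) = (z⁻¹ : H).1 ((y⁻¹ : H).1 (e j))
      rw [this]
    · change (x⁻¹ : H).1 (e i) < (y⁻¹ : H).1 (e i) at h2
      change ((x * z)⁻¹ : H).1 (e i) < ((y * z)⁻¹ : H).1 (e i)
      rw [mul_inv_rev, mul_inv_rev]
      change (z⁻¹ : H).1 ((x⁻¹ : H).1 (e i)) < (z⁻¹ : H).1 ((y⁻¹ : H).1 (e i))
      exact (z⁻¹ : H).1.strictMono h2

/-- fibrewise affine map -/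
def fib (a : ℤ → ℚ) (ha : ∀ i, 0 < a i) (b : ℤ → ℚ) : Om ≃o Om where
  toFun x := toLex ((ofLex x).1, a (ofLex x).1 * (ofLex x).2 + b (ofLex x).1)
  invFun x := toLex ((ofLex x).1, ((ofLex x).2 - b (ofLex x).1) / a (ofLex x).1)
  left_inv x := by
    have := (ha (ofLex x).1).ne'
    simp only [ofLex_toLex, add_sub_cancel_right, mul_div_cancel_left₀ _ this]
    rfl
  right_inv x := by
    have := (ha (ofLex x).1).ne'
    simp only [ofLex_toLex, mul_div_cancel₀ _ this, sub_add_cancel]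
    rfl
  map_rel_iff' := by
    intro x y
    simp only [Equiv.coe_fn_mk, Prod.Lex.le_iff, ofLex_toLex]
    refine or_congr Iff.rfl (and_congr_right fun h => ?_)
    rw [h, add_le_add_iff_right, mul_le_mul_iff_right₀ (ha _)]

def sh : Om ≃o Om where
  toFun x := toLex ((ofLex x).1 + 1, (ofLex x).2)
  invFun x := toLex ((ofLex x).1 - 1, (ofLex x).2)
  left_inv x := by simp
  right_inv x := by simp
  map_rel_iff' := by
    intro x y
    simp [Prod.Lex.le_iff]

theorem sh_pow (n : ℕ) (i : ℤ) (q : ℚ) : (sh ^ n) (toLex (i, q)) = toLex (i + n, q) := by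
  induction n with
  | zero => simp
  | succ n ih =>
    rw [pow_succ', RelIso.mul_apply, ih]
    change toLex (i + n + 1, q) = _
    push_cast
    rw [add_assoc]

open Classical in
noncomputable def aa (S : Set ℕ) : Om ≃o Om :=
  fib (fun _ => 1) (fun _ => one_pos) (fun i => if ∃ n ∈ S, i = (n : ℤ) then 0 else 1)

def bb : Om ≃o Om :=
  fib (fun i => if i = 0 then 2 else 1) (fun i => by split_ifs <;> norm_num) (fun _ => 0)

theorem comm_iff (S : Set ℕ) (n : ℕ) :
    ((sh ^ n)⁻¹ * aa S * sh ^ n) * bb = bb * ((sh ^ n)⁻¹ * aa S * sh ^ n) ↔ n ∈ S := by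
  classical
  have key : ∀ (i : ℤ) (q : ℚ), ((sh ^ n)⁻¹ * aa S * sh ^ n) (toLex (i, q)) =
      toLex (i, q + if ∃ m ∈ S, i + n = (m : ℤ) then 0 else 1) := by
    intro i q
    apply (sh ^ n).injective
    rw [mul_assoc, RelIso.mul_apply, RelIso.apply_inv_self, RelIso.mul_apply, sh_pow, sh_pow]
    simp [aa, fib]
  have hb : ∀ (i : ℤ) (q : ℚ), bb (toLex (i, q)) = toLex (i, (if i = 0 then 2 else 1) * q) := by
    intro i q
    simp [bb, fib]
  constructor
  · intro h
    have h1 := DFunLike.congr_fun h (toLex (0, 0))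
    rw [RelIso.mul_apply, RelIso.mul_apply bb, hb, key, key, hb] at h1
    by_contra hn
    have h2 : ¬ ∃ m ∈ S, (0 : ℤ) + n = (m : ℤ) := by
      rintro ⟨m, hm, h⟩
      have : n = m := by omega
      exact hn (this ▸ hm)
    rw [if_neg h2] at h1
    norm_num at h1
  · intro hn
    refine DFunLike.ext _ _ fun x => ?_
    obtain ⟨⟨i, q⟩, rfl⟩ := toLex.surjective x
    rw [RelIso.mul_apply, RelIso.mul_apply bb, hb, key, key, hb]
    by_cases hi : i = 0
    · subst hi
      simp [hn]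
    · simp [hi]

theorem result (U : Type) [Group U] [Countable U] :
    ∃ (G : Type) (_ : Group G), Countable G ∧ RightOrderable G ∧
      ∀ f : G →* U, ¬ Function.Injective f := by
  by_contra hcon
  push Not at hcon
  let H : Set ℕ → Subgroup (Om ≃o Om) := fun S => (FreeGroup.lift ![aa S, bb, sh]).range
  have hc : ∀ S, Countable (H S) := fun S =>
    (FreeGroup.lift ![aa S, bb, sh]).rangeRestrict_surjective.countable
  choose f hf using fun S => hcon (H S) inferInstance (hc S) (ro_sub _)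
  let a : ∀ S, H S := fun S => ⟨aa S, FreeGroup.of 0, by simp⟩
  let b : ∀ S, H S := fun S => ⟨bb, FreeGroup.of 1, by simp⟩
  let t : ∀ S, H S := fun S => ⟨sh, FreeGroup.of 2, by simp⟩
  let Φ : Set ℕ → U × U × U := fun S => (f S (a S), f S (b S), f S (t S))
  have hmem : ∀ S n, n ∈ S ↔ (((Φ S).2.2 ^ n)⁻¹ * (Φ S).1 * (Φ S).2.2 ^ n) * (Φ S).2.1 =
      (Φ S).2.1 * (((Φ S).2.2 ^ n)⁻¹ * (Φ S).1 * (Φ S).2.2 ^ n) := by
    intro S n
    simp only [Φ, ← map_pow, ← map_inv, ← map_mul]
    rw [(hf S).eq_iff, Subtype.ext_iff, ← comm_iff]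
    rfl
  have hinj : Function.Injective Φ := by
    intro S S' h
    ext n
    rw [hmem, hmem, h]
  have : Countable (Set ℕ) := hinj.countable
  obtain ⟨g, hg⟩ := exists_surjective_nat (Set ℕ)
  exact Function.cantor_surjective g hg

end Pool.Agent.Results.MP_49314d_al.NoUniversal
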